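import Mathlib
import Pool.Agent.Q263.MD.Dig

/-!
Integers with restricted digits in residue classes: asymptotic form with an explicit error.
-/

set_option autoImplicit false

open Finset

namespace Pool.Agent.Q263.SV

open Pool.Agent.Q263.MD (Dig nb nb_spec nb_digits card_Dig maj maj_le_one maj_pos maj_add_int
  char_sum maj_shift digit_sum)

/-- the product -/
noncomputable def Ph (b k : ℕ) (x : ℝ) : ℝ := ∏ i ∈ range k, maj b ((b : ℝ) ^ i * x)

lemma Ph_nonneg {b : ℕ} (hb : 2 ≤ b) (k : ℕ) (x : ℝ) : 0 ≤ Ph b k x :=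
  Finset.prod_nonneg fun _ _ => (maj_pos hb _).le

lemma Ph_le_one {b : ℕ} (hb : 2 ≤ b) (k : ℕ) (x : ℝ) : Ph b k x ≤ 1 :=
  Finset.prod_le_one (fun _ _ => (maj_pos hb _).le) fun _ _ => maj_le_one hb _

lemma Ph_add_int (b k : ℕ) (x : ℝ) (n : ℤ) : Ph b k (x + n) = Ph b k x := by
  unfold Ph
  refine Finset.prod_congr rfl fun i _ => ?_
  have e1 : (b : ℝ) ^ i * (x + n) = (b : ℝ) ^ i * x + (((b : ℤ) ^ i * n : ℤ) : ℝ) := by
    push_cast
    ring
  rw [e1, maj_add_int]

/-- the error term -/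
noncomputable def Er (b k q : ℕ) : ℝ := ∑ x ∈ (range q).erase 0, Ph b k ((x : ℝ) / q)

lemma Er_nonneg {b : ℕ} (hb : 2 ≤ b) (k q : ℕ) : 0 ≤ Er b k q :=
  Finset.sum_nonneg fun _ _ => Ph_nonneg hb _ _

section
variable {q : ℕ} [NeZero q]

/-- the number of the integers with restricted digits in a residue class -/
theorem count_err {b : ℕ} (hb : 2 ≤ b) {k : ℕ} (D : Fin k → Finset ℕ)
    (hD : ∀ i, ∀ d ∈ D i, d < b) (hD2 : ∀ i, 2 ≤ (D i).card) (r : ZMod q) :
    |(((Fintype.piFinset D).filter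
      (fun d : Fin k → ℕ => ((∑ i : Fin k, d i * b ^ (i : ℕ) : ℕ) : ZMod q) = r)).card : ℝ) * q -
      ∏ i, ((D i).card : ℝ)| ≤ (∏ i, ((D i).card : ℝ)) * Er b k q := by
  classical
  set N : (Fin k → ℕ) → ZMod q := fun d => ((∑ i : Fin k, d i * b ^ (i : ℕ) : ℕ) : ZMod q) with hN
  have h1 : ((((Fintype.piFinset D).filter (fun d => N d = r)).card * q : ℝ) : ℂ) =
      ∑ x : ZMod q, ∑ d ∈ Fintype.piFinset D, (ZMod.stdAddChar (x * (N d - r)) : ℂ) := by
    rw [Finset.sum_comm, Finset.card_filter]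
    push_cast
    rw [Finset.sum_mul]
    refine Finset.sum_congr rfl fun d _ => ?_
    rw [AddChar.sum_mulShift _ (ZMod.isPrimitive_stdAddChar q), ZMod.card]
    by_cases h : N d = r
    · rw [if_pos h, if_pos (sub_eq_zero.2 h)]
      push_cast
      ring
    · rw [if_neg h, if_neg (sub_ne_zero.2 h)]
      simp
  have h2 : ∀ x : ZMod q, ‖∑ d ∈ Fintype.piFinset D, (ZMod.stdAddChar (x * (N d - r)) : ℂ)‖ ≤
      (∏ i, ((D i).card : ℝ)) * Ph b k ((x.val : ℝ) / q) := by
    intro x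
    have e1 : ∑ d ∈ Fintype.piFinset D, (ZMod.stdAddChar (x * (N d - r)) : ℂ) =
        (∏ i, ∑ c ∈ D i, (ZMod.stdAddChar ((c : ZMod q) * (x * (b : ZMod q) ^ (i : ℕ))) : ℂ)) *
          ZMod.stdAddChar (-(x * r)) := by
      rw [Finset.prod_univ_sum, Finset.sum_mul]
      refine Finset.sum_congr rfl fun d _ => ?_
      rw [← char_sum, ← AddChar.map_add_eq_mul]
      congr 1
      simp only [hN]
      push_cast
      rw [mul_sub, Finset.mul_sum, sub_eq_add_neg]
      congr 1
      refine Finset.sum_congr rfl fun i _ => ?_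
      ring
    unfold Ph
    rw [e1, norm_mul, AddChar.norm_apply, mul_one, norm_prod,
      Finset.prod_range (fun i => maj b ((b : ℝ) ^ i * ((x.val : ℝ) / q))),
      ← Finset.prod_mul_distrib]
    refine Finset.prod_le_prod (fun i _ => norm_nonneg _) fun i _ => ?_
    refine (digit_sum hb (D i) (hD i) (hD2 i) _).trans (le_of_eq ?_)
    congr 1
    have := maj_shift b (i : ℕ) 0 x
    rw [pow_zero, one_mul, add_zero] at this
    exact this
  have h0 : ∑ d ∈ Fintype.piFinset D, (ZMod.stdAddChar ((0 : ZMod q) * (N d - r)) : ℂ) =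
      ((∏ i, ((D i).card : ℝ) : ℝ) : ℂ) := by
    simp only [zero_mul, AddChar.map_zero_eq_one, Finset.sum_const, nsmul_eq_mul, mul_one,
      Fintype.card_piFinset]
    push_cast
    rfl
  have h3 : (((((Fintype.piFinset D).filter (fun d => N d = r)).card * q : ℝ) -
      ∏ i, ((D i).card : ℝ) : ℝ) : ℂ) =
      ∑ x ∈ (Finset.univ : Finset (ZMod q)).erase 0,
        ∑ d ∈ Fintype.piFinset D, (ZMod.stdAddChar (x * (N d - r)) : ℂ) := by
    rw [Complex.ofReal_sub, h1, ← Finset.add_sum_erase _ _ (Finset.mem_univ (0 : ZMod q)), h0]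
    ring
  have h4 : ∑ x ∈ (Finset.univ : Finset (ZMod q)).erase 0, Ph b k ((x.val : ℝ) / q) = Er b k q := by
    unfold Er
    apply Finset.sum_bij (fun x _ => x.val)
    · intro x hx
      rw [Finset.mem_erase] at hx ⊢
      refine ⟨?_, Finset.mem_range.2 (ZMod.val_lt x)⟩
      rw [Ne, ZMod.val_eq_zero]
      exact hx.1
    · intro x _ y _ h
      exact ZMod.val_injective q h
    · intro n hn
      rw [Finset.mem_erase, Finset.mem_range] at hn
      refine ⟨(n : ZMod q), ?_, ZMod.val_natCast_of_lt hn.2⟩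
      rw [Finset.mem_erase]
      refine ⟨?_, Finset.mem_univ _⟩
      intro h
      have h5 := ZMod.val_natCast_of_lt hn.2
      rw [h, ZMod.val_zero] at h5
      exact hn.1 h5.symm
    · intro x _
      rfl
  have h5 : |(((Fintype.piFinset D).filter (fun d => N d = r)).card : ℝ) * q -
      ∏ i, ((D i).card : ℝ)| =
      ‖∑ x ∈ (Finset.univ : Finset (ZMod q)).erase 0,
        ∑ d ∈ Fintype.piFinset D, (ZMod.stdAddChar (x * (N d - r)) : ℂ)‖ := by
    rw [← h3, Complex.norm_real, Real.norm_eq_abs]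
  rw [h5, ← h4, Finset.mul_sum]
  exact (norm_sum_le _ _).trans (Finset.sum_le_sum fun x _ => h2 x)

end

/-- the number of the integers with restricted digits in a residue class -/
theorem dig_err {b : ℕ} (hb : 2 ≤ b) {k : ℕ} (D : Fin k → Finset ℕ)
    (hD : ∀ i, ∀ d ∈ D i, d < b) (hD2 : ∀ i, 2 ≤ (D i).card) (q : ℕ) (hq : 1 ≤ q) (r : ℕ)
    (hr : r < q) :
    |(((Dig b k D).filter (fun m => m % q = r)).card : ℝ) - (Dig b k D).card / q| ≤
      (Dig b k D).card * (Er b k q / q) := by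
  classical
  have : NeZero q := ⟨by omega⟩
  have hq0 : (0 : ℝ) < q := by exact_mod_cast hq
  have h1 := count_err hb D hD hD2 (r : ZMod q)
  have h2 := Pool.Agent.Q263.MD.card_filter (b := b) D hD (fun m => m % q = r)
  have h3 : (Fintype.piFinset D).filter (fun d => nb b d % q = r) =
      (Fintype.piFinset D).filter
      (fun d : Fin k → ℕ => ((∑ i : Fin k, d i * b ^ (i : ℕ) : ℕ) : ZMod q) = (r : ZMod q)) := by
    apply Finset.filter_congr
    intro d _
    rw [ZMod.natCast_eq_natCast_iff]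
    unfold Nat.ModEq nb
    rw [Nat.mod_eq_of_lt hr]
  rw [h2, h3, card_Dig D hD]
  rw [← Nat.cast_prod] at h1
  set X := ((((Fintype.piFinset D).filter
      (fun d : Fin k → ℕ => ((∑ i : Fin k, d i * b ^ (i : ℕ) : ℕ) : ZMod q) =
        (r : ZMod q))).card : ℕ) : ℝ) with hX
  set Y := ((∏ i, (D i).card : ℕ) : ℝ) with hY
  have e1 : X - Y / q = (X * q - Y) / q := by field_simp
  rw [e1, abs_div, abs_of_pos hq0, div_le_iff₀ hq0]
  calc |X * q - Y| ≤ Y * Er b k q := h1
    _ = _ := by field_simp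

end Pool.Agent.Q263.SV
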