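import Mathlib
import Pool.Agent.Q263.SV.Sum

/-!
The level of distribution: sums over the denominators in a range.
-/

set_option autoImplicit false

open Finset

namespace Pool.Agent.Q263.SV

open Pool.Agent.Q263.MD (maj maj_le_one maj_pos maj_add_int maj_small sig sig_pos sig_lt frs
  mem_frs frs_ne frs_closed frs_gap Near Sepd Sm kap_pos)

/-- orbits which stay close to fractions with small denominators -/
lemma far {b : ℕ} (hb : 2 ≤ b) (m : ℕ) : ∀ x : ℝ,
    (∀ i ≤ m, ∃ p ∈ frs b, Near (1 / (4 * (b : ℝ) ^ 2) / b) p ((b : ℝ) ^ i * x)) →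
    ∃ p ∈ frs b, ∃ n : ℤ, |x - p - n| * (b : ℝ) ^ m < 1 / (4 * (b : ℝ) ^ 2) / b := by
  have hb0 : (0 : ℝ) < b := by exact_mod_cast (by omega : 0 < b)
  have hb1 : (1 : ℝ) ≤ b := by exact_mod_cast (by omega : 1 ≤ b)
  have hb2 : (2 : ℝ) ≤ b := by exact_mod_cast hb
  induction m with
  | zero =>
    intro x h
    obtain ⟨p, hp, n, hn⟩ := h 0 (le_refl 0)
    refine ⟨p, hp, n, ?_⟩
    rw [pow_zero, one_mul] at hn
    rw [pow_zero, mul_one]
    exact hn
  | succ m ih =>
    intro x h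
    obtain ⟨p1, hp1, n1, hn1⟩ := ih ((b : ℝ) * x) (by
      intro i hi
      obtain ⟨p, hp, hn⟩ := h (i + 1) (by omega)
      refine ⟨p, hp, ?_⟩
      have e1 : (b : ℝ) ^ i * (b * x) = (b : ℝ) ^ (i + 1) * x := by ring
      rw [e1]
      exact hn)
    obtain ⟨p0, hp0, n0, hn0⟩ := h 0 (Nat.zero_le _)
    rw [pow_zero, one_mul] at hn0
    obtain ⟨p', hp', n', hn'⟩ := frs_closed p0 hp0
    set κ : ℝ := 1 / (4 * (b : ℝ) ^ 2) with hκ
    have hκ0 : 0 < κ := by rw [hκ]; positivity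
    have hκb : κ / b ≤ κ := div_le_self hκ0.le hb1
    have hκ1 : κ ≤ 1 / 4 := by
      rw [hκ]
      apply one_div_le_one_div_of_le (by norm_num)
      nlinarith
    have h1 : |(b : ℝ) * x - p' - ((n' + b * n0 : ℤ) : ℝ)| < κ := by
      have e1 : (b : ℝ) * x - p' - ((n' + b * n0 : ℤ) : ℝ) = b * (x - p0 - n0) := by
        push_cast
        linarith
      rw [e1, abs_mul, abs_of_pos hb0]
      calc (b : ℝ) * |x - p0 - n0| < b * (κ / b) := mul_lt_mul_of_pos_left hn0 hb0
        _ = κ := by field_simp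
    have h2 : |(b : ℝ) * x - p1 - n1| < κ := by
      have h3 : |(b : ℝ) * x - p1 - n1| ≤ |(b : ℝ) * x - p1 - n1| * (b : ℝ) ^ m :=
        le_mul_of_one_le_right (abs_nonneg _) (one_le_pow₀ hb1)
      linarith
    have h3 : |p1 - p' - ((n' + b * n0 - n1 : ℤ) : ℝ)| < 2 * κ := by
      have e1 : p1 - p' - ((n' + b * n0 - n1 : ℤ) : ℝ) =
          ((b : ℝ) * x - p' - ((n' + b * n0 : ℤ) : ℝ)) - ((b : ℝ) * x - p1 - n1) := by
        push_cast
        ring
      rw [e1]
      refine lt_of_le_of_lt (abs_sub _ _) ?_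
      linarith
    have h4 : p1 = p' := by
      by_contra hne
      exact absurd (frs_gap hb p1 hp1 p' hp' hne (n' + b * n0 - n1)) (not_le.2 h3)
    have h5 : n' + b * n0 - n1 = 0 := by
      rw [h4, sub_self, zero_sub, abs_neg] at h3
      have h6 : |((n' + b * n0 - n1 : ℤ) : ℝ)| < 1 := by linarith
      rw [← Int.cast_abs] at h6
      have h7 : |n' + (b : ℤ) * n0 - n1| < 1 := by exact_mod_cast h6
      exact Int.abs_lt_one_iff.1 h7
    refine ⟨p0, hp0, n0, ?_⟩
    have h6 : (b : ℝ) * x - p1 - n1 = b * (x - p0 - n0) := by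
      have h7 : (n1 : ℝ) = n' + b * n0 := by
        have : n1 = n' + b * n0 := by linarith
        rw [this]
        push_cast
        ring
      rw [h7, h4]
      linarith
    rw [h6, abs_mul, abs_of_pos hb0] at hn1
    calc |x - p0 - n0| * (b : ℝ) ^ (m + 1) = b * |x - p0 - n0| * (b : ℝ) ^ m := by ring
      _ < _ := hn1

/-- reduced fractions with a denominator prime to `b!` -/
lemma Ph_le_sig {b : ℕ} (hb : 2 ≤ b) (m a d : ℕ) (hd : 1 < d) (hdb : d.Coprime b.factorial)
    (ha : a.Coprime d) (hdm : d ≤ b ^ m) : Ph b (m + 1) ((a : ℝ) / d) ≤ sig b := by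
  have hb0 : (0 : ℝ) < b := by exact_mod_cast (by omega : 0 < b)
  have hb2 : (2 : ℝ) ≤ b := by exact_mod_cast hb
  have hd0 : (0 : ℝ) < d := by exact_mod_cast (by omega : 0 < d)
  obtain ⟨i, hi, hfar⟩ : ∃ i ≤ m, ∀ p ∈ frs b, ¬ Near (1 / (4 * (b : ℝ) ^ 2) / b) p
      ((b : ℝ) ^ i * ((a : ℝ) / d)) := by
    by_contra hcon
    push Not at hcon
    obtain ⟨p, hp, n, hn⟩ := far hb m ((a : ℝ) / d) hcon
    obtain ⟨e, j, he1, heb, hje, rfl⟩ := mem_frs.1 hp
    have he0 : (0 : ℝ) < e := by exact_mod_cast he1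
    have hz : (a : ℤ) * e - j * d - n * (d * e) ≠ 0 := by
      intro h0
      have h1 : (d : ℤ) ∣ (a : ℤ) * e := ⟨j + n * e, by linear_combination h0⟩
      have h2 : d ∣ a * e := by exact_mod_cast h1
      have h3 : d ∣ e := (Nat.Coprime.dvd_of_dvd_mul_left ha.symm h2)
      have h4 : d ∣ b.factorial := h3.trans (Nat.dvd_factorial he1 heb.le)
      have h5 := Nat.Coprime.eq_one_of_dvd hdb h4
      omega
    have h1 : (a : ℝ) / d - (j : ℝ) / e - n =
        (((a : ℤ) * e - j * d - n * (d * e) : ℤ) : ℝ) / (d * e) := by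
      push_cast
      field_simp
    have h2 : (1 : ℝ) ≤ |(((a : ℤ) * e - j * d - n * (d * e) : ℤ) : ℝ)| := by
      rw [← Int.cast_abs]
      exact_mod_cast Int.one_le_abs hz
    rw [h1, abs_div, abs_of_pos (by positivity : (0 : ℝ) < d * e)] at hn
    have h3 : 1 / (b : ℝ) ≤ |(((a : ℤ) * e - j * d - n * (d * e) : ℤ) : ℝ)| / (d * e) *
        (b : ℝ) ^ m := by
      rw [div_mul_eq_mul_div, div_le_div_iff₀ hb0 (by positivity)]
      have h4 : (d : ℝ) ≤ (b : ℝ) ^ m := by exact_mod_cast hdm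
      have h5 : (e : ℝ) ≤ b := by exact_mod_cast heb.le
      have h6 : (d : ℝ) * e ≤ (b : ℝ) ^ m * b := mul_le_mul h4 h5 he0.le (by positivity)
      calc 1 * ((d : ℝ) * e) ≤ 1 * ((b : ℝ) ^ m * b) := by linarith
        _ ≤ |(((a : ℤ) * e - j * d - n * (d * e) : ℤ) : ℝ)| * ((b : ℝ) ^ m * b) :=
            mul_le_mul_of_nonneg_right h2 (by positivity)
        _ = _ := by ring
    have h4 : 1 / (4 * (b : ℝ) ^ 2) / b ≤ 1 / b := by
      apply div_le_div_of_nonneg_right _ hb0.le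
      rw [div_le_one (by positivity)]
      nlinarith
    linarith
  unfold Ph
  rw [← Finset.mul_prod_erase _ _ (Finset.mem_range.2 (by omega : i < m + 1)),
    maj_small _ hfar]
  exact mul_le_of_le_one_right (sig_pos hb).le
    (Finset.prod_le_one (fun _ _ => (maj_pos hb _).le) fun _ _ => maj_le_one hb _)

/-- blocks -/
lemma G_le_blocks {b : ℕ} (hb : 2 ≤ b) (k d M n : ℕ) (hd : 1 < d) (hdb : d.Coprime b)
    (hn : 1 ≤ n) (hk : n * M ≤ k) :
    G b k d ≤ ∑ a ∈ (range d).filter (fun a => a.Coprime d), (Ph b M ((a : ℝ) / d)) ^ n := by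
  classical
  have hd0 : (0 : ℝ) < d := by exact_mod_cast (by omega : 0 < d)
  have hn0 : (0 : ℝ) < n := by exact_mod_cast hn
  have hpt : ∀ x : ℝ, Ph b k x ≤ ∑ j ∈ range n, (1 / (n : ℝ)) * (Ph b M ((b : ℝ) ^ (j * M) * x)) ^ n := by
    intro x
    have h1 : Ph b k x ≤ ∏ j ∈ range n, Ph b M ((b : ℝ) ^ (j * M) * x) := by
      obtain ⟨r, rfl⟩ : ∃ r, k = n * M + r := ⟨k - n * M, by omega⟩
      unfold Ph
      rw [Finset.prod_range_add, Pool.Agent.Q263.MD.prod_blocks (fun i => maj b ((b : ℝ) ^ i * x))]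
      have h2 : ∏ i ∈ range r, maj b ((b : ℝ) ^ (n * M + i) * x) ≤ 1 :=
        Finset.prod_le_one (fun i _ => (maj_pos hb _).le) fun i _ => maj_le_one hb _
      have h3 : ∏ j ∈ range n, ∏ i ∈ range M, maj b ((b : ℝ) ^ (j * M + i) * x) =
          ∏ j ∈ range n, ∏ i ∈ range M, maj b ((b : ℝ) ^ i * ((b : ℝ) ^ (j * M) * x)) := by
        refine Finset.prod_congr rfl fun j _ => Finset.prod_congr rfl fun i _ => ?_
        congr 1
        rw [pow_add]
        ring
      rw [h3]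
      exact mul_le_of_le_one_right (Finset.prod_nonneg fun j _ =>
        Finset.prod_nonneg fun i _ => (maj_pos hb _).le) h2
    exact h1.trans (Pool.Agent.Q263.MD.amgm n hn (fun j => Ph b M ((b : ℝ) ^ (j * M) * x))
      (fun j => Ph_nonneg hb _ _))
  have hperm : ∀ j : ℕ, ∑ a ∈ (range d).filter (fun a => a.Coprime d),
      (Ph b M ((b : ℝ) ^ (j * M) * ((a : ℝ) / d))) ^ n ≤
      ∑ a ∈ (range d).filter (fun a => a.Coprime d), (Ph b M ((a : ℝ) / d)) ^ n := by
    intro j
    set c := b ^ (j * M) with hc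
    have hcd : c.Coprime d := Nat.Coprime.pow_left _ hdb.symm
    refine sum_le_inj _ _ (fun a => c * a % d) _ _ ?_ ?_ ?_ ?_
    · intro a ha
      rw [Finset.mem_filter, Finset.mem_range] at ha ⊢
      refine ⟨Nat.mod_lt _ (by omega), ?_⟩
      unfold Nat.Coprime
      rw [← Nat.gcd_rec, Nat.gcd_comm]
      exact Nat.Coprime.mul_left hcd ha.2
    · intro a ha a' ha' h
      rw [Finset.mem_filter, Finset.mem_range] at ha ha'
      have h1 : c * a ≡ c * a' [MOD d] := h
      have h2 := Nat.ModEq.cancel_left_of_coprime hcd.symm h1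
      exact Nat.ModEq.eq_of_lt_of_lt h2 ha.1 ha'.1
    · intro a _
      apply le_of_eq
      congr 1
      have h1 : (b : ℝ) ^ (j * M) * ((a : ℝ) / d) =
          (((c * a % d : ℕ) : ℝ)) / d + (((c * a / d : ℕ) : ℤ) : ℝ) := by
        have h2 : ((d * (c * a / d) + c * a % d : ℕ) : ℝ) = ((c * a : ℕ) : ℝ) := by
          rw [Nat.div_add_mod]
        have h3 : ((c * a : ℕ) : ℝ) = (b : ℝ) ^ (j * M) * a := by
          rw [hc]
          push_cast
          rfl
        rw [h3] at h2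
        generalize c * a / d = u at h2 ⊢
        generalize c * a % d = v at h2 ⊢
        push_cast at h2 ⊢
        field_simp
        linarith
      rw [h1, Ph_add_int]
    · intro a _
      exact pow_nonneg (Ph_nonneg hb _ _) _
  unfold G
  calc ∑ a ∈ (range d).filter (fun a => a.Coprime d), Ph b k ((a : ℝ) / d)
      ≤ ∑ a ∈ (range d).filter (fun a => a.Coprime d),
        ∑ j ∈ range n, (1 / (n : ℝ)) * (Ph b M ((b : ℝ) ^ (j * M) * ((a : ℝ) / d))) ^ n :=
        Finset.sum_le_sum fun a _ => hpt _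
    _ = ∑ j ∈ range n, (1 / (n : ℝ)) * ∑ a ∈ (range d).filter (fun a => a.Coprime d),
        (Ph b M ((b : ℝ) ^ (j * M) * ((a : ℝ) / d))) ^ n := by
        rw [Finset.sum_comm]
        refine Finset.sum_congr rfl fun j _ => ?_
        rw [Finset.mul_sum]
    _ ≤ ∑ _j ∈ range n, (1 / (n : ℝ)) *
        ∑ a ∈ (range d).filter (fun a => a.Coprime d), (Ph b M ((a : ℝ) / d)) ^ n :=
        Finset.sum_le_sum fun j _ => mul_le_mul_of_nonneg_left (hperm j) (by positivity)
    _ = _ := by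
        rw [Finset.sum_const, Finset.card_range, nsmul_eq_mul, ← mul_assoc]
        have : (n : ℝ) * (1 / n) = 1 := by field_simp
        rw [this, one_mul]

/-- the denominators in a range -/
theorem level {b : ℕ} (hb : 2 ≤ b) (η : ℝ) (hη : 0 < η) :
    ∃ B : ℕ, 1 ≤ B ∧ ∀ (M n k : ℕ) (Δ : Finset ℕ), 2 ≤ M → B ≤ n → n * M ≤ k →
      (∀ d ∈ Δ, 1 < d ∧ d.Coprime b.factorial ∧ d ^ 2 ≤ b ^ M) →
      ∑ d ∈ Δ, G b k d ≤ sig b ^ (n - B) * (2 * (frs b).card * (1 + η) ^ M) := by
  classical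
  have hb0 : (0 : ℝ) < b := by exact_mod_cast (by omega : 0 < b)
  have hQ : (1 : ℝ) ≤ (frs b).card := by exact_mod_cast (frs_ne hb).card_pos
  obtain ⟨B, hBs⟩ := exists_pow_lt_of_lt_one
    (show 0 < min (1 / (4 * (b : ℝ))) (η / (2 * (frs b).card)) from lt_min (by positivity)
      (by positivity)) (sig_lt hb)
  have hB1 : 1 ≤ B := by
    by_contra h
    have h0 : B = 0 := by omega
    rw [h0, pow_zero] at hBs
    have h1 := hBs.le.trans (min_le_left _ _)
    rw [le_div_iff₀ (by positivity)] at h1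
    have : (2 : ℝ) ≤ b := by exact_mod_cast hb
    linarith
  refine ⟨B, hB1, fun M n k Δ hM hn hk hΔ => ?_⟩
  obtain ⟨m, rfl⟩ : ∃ m, M = m + 1 := ⟨M - 1, by omega⟩
  have hbfac : b ∣ b.factorial := Nat.dvd_factorial (by omega) (le_refl b)
  -- one denominator
  have h1 : ∀ d ∈ Δ, G b k d ≤ sig b ^ (n - B) *
      ∑ a ∈ (range d).filter (fun a => a.Coprime d), (Ph b (m + 1) ((a : ℝ) / d)) ^ B := by
    intro d hd
    obtain ⟨hd1, hdb, hdM⟩ := hΔ d hd
    have hdm : d ≤ b ^ m := by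
      by_contra hcon
      push Not at hcon
      have h2 : b ^ m * b ^ m < d ^ 2 := by
        rw [sq]
        exact Nat.mul_lt_mul'' hcon hcon
      have h3 : b ^ (m + 1) ≤ b ^ m * b ^ m := by
        rw [← pow_add]
        exact Nat.pow_le_pow_right (by omega) (by omega)
      omega
    refine (G_le_blocks hb k d (m + 1) n hd1 (Nat.Coprime.coprime_dvd_right hbfac hdb)
      (hB1.trans hn) hk).trans ?_
    rw [Finset.mul_sum]
    refine Finset.sum_le_sum fun a ha => ?_
    rw [Finset.mem_filter] at ha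
    have h2 := Ph_le_sig hb m a d hd1 hdb ha.2 hdm
    have h3 := Ph_nonneg hb (m + 1) ((a : ℝ) / d)
    calc (Ph b (m + 1) ((a : ℝ) / d)) ^ n
        = (Ph b (m + 1) ((a : ℝ) / d)) ^ (n - B) * (Ph b (m + 1) ((a : ℝ) / d)) ^ B := by
          rw [← pow_add]
          congr 1
          omega
      _ ≤ _ := mul_le_mul_of_nonneg_right (pow_le_pow_left₀ h3 h2 _) (pow_nonneg h3 _)
  refine (Finset.sum_le_sum h1).trans ?_
  rw [← Finset.mul_sum]
  apply mul_le_mul_of_nonneg_left _ (pow_nonneg (sig_pos hb).le _)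
  -- all the fractions
  set X : Finset ℝ := (Δ.sigma (fun d => (range d).filter (fun a => a.Coprime d))).image
    (fun s => (s.2 : ℝ) / s.1) with hX
  have hfrac : ∀ d ∈ Δ, ∀ a ∈ (range d).filter (fun a => a.Coprime d), ∀ d' ∈ Δ,
      ∀ a' ∈ (range d').filter (fun a => a.Coprime d'), ∀ n : ℤ,
      (a : ℤ) * d' - a' * d - n * (d * d') = 0 → d = d' ∧ a = a' := by
    intro d hd a ha d' hd' a' ha' n h0
    rw [Finset.mem_filter, Finset.mem_range] at ha ha'
    obtain ⟨hd1, -, -⟩ := hΔ d hd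
    obtain ⟨hd1', -, -⟩ := hΔ d' hd'
    have h2 : (d : ℤ) ∣ (a : ℤ) * d' := ⟨a' + n * d', by linear_combination h0⟩
    have h3 : d ∣ d' := Nat.Coprime.dvd_of_dvd_mul_left ha.2.symm (by exact_mod_cast h2)
    have h4 : (d' : ℤ) ∣ (a' : ℤ) * d := ⟨a - n * d, by linear_combination -h0⟩
    have h5 : d' ∣ d := Nat.Coprime.dvd_of_dvd_mul_left ha'.2.symm (by exact_mod_cast h4)
    have h6 : d = d' := Nat.dvd_antisymm h3 h5
    subst h6
    refine ⟨rfl, ?_⟩
    have hdz : (d : ℤ) ≠ 0 := by exact_mod_cast (by omega : d ≠ 0)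
    have h7 : (a : ℤ) - a' = n * d := by
      have h8 : (d : ℤ) * ((a : ℤ) - a' - n * d) = 0 := by linear_combination h0
      rcases mul_eq_zero.1 h8 with h9 | h9
      · exact absurd h9 hdz
      · linarith
    have h8 : (a : ℤ) < d := by exact_mod_cast ha.1
    have h9 : (a' : ℤ) < d := by exact_mod_cast ha'.1
    have h10 : (0 : ℤ) < d := by exact_mod_cast (by omega : 0 < d)
    have h11 : n < 1 := by
      by_contra h
      push Not at h
      nlinarith
    have h12 : -1 < n := by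
      by_contra h
      push Not at h
      nlinarith
    have h13 : n = 0 := by omega
    rw [h13, zero_mul] at h7
    have : (a : ℤ) = a' := by linarith
    exact_mod_cast this
  have hsep : Sepd ((b : ℝ) ^ (m + 1))⁻¹ X := by
    intro u hu v hv huv n
    rw [hX, Finset.mem_image] at hu hv
    obtain ⟨⟨d, a⟩, hda, rfl⟩ := hu
    obtain ⟨⟨d', a'⟩, hda', rfl⟩ := hv
    rw [Finset.mem_sigma] at hda hda'
    obtain ⟨hd, ha⟩ := hda
    obtain ⟨hd', ha'⟩ := hda'
    simp only at hd ha hd' ha' huv ⊢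
    obtain ⟨hd1, -, hdM⟩ := hΔ d hd
    obtain ⟨hd1', -, hdM'⟩ := hΔ d' hd'
    have hd0 : (0 : ℝ) < d := by exact_mod_cast (by omega : 0 < d)
    have hd0' : (0 : ℝ) < d' := by exact_mod_cast (by omega : 0 < d')
    have hz : (a : ℤ) * d' - a' * d - n * (d * d') ≠ 0 := by
      intro h0
      obtain ⟨h2, h3⟩ := hfrac d hd a ha d' hd' a' ha' n h0
      apply huv
      rw [h2, h3]
    have e1 : (a : ℝ) / d - (a' : ℝ) / d' - n =
        (((a : ℤ) * d' - a' * d - n * (d * d') : ℤ) : ℝ) / (d * d') := by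
      push_cast
      field_simp
    have h2 : (1 : ℝ) ≤ |(((a : ℤ) * d' - a' * d - n * (d * d') : ℤ) : ℝ)| := by
      rw [← Int.cast_abs]
      exact_mod_cast Int.one_le_abs hz
    rw [e1, abs_div, abs_of_pos (by positivity : (0 : ℝ) < d * d')]
    have h3 : d * d' ≤ b ^ (m + 1) := by
      by_contra hcon
      push Not at hcon
      have h4 : b ^ (m + 1) * b ^ (m + 1) < (d * d') * (d * d') := Nat.mul_lt_mul'' hcon hcon
      have h5 : (d * d') * (d * d') = d ^ 2 * d' ^ 2 := by ring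
      have h6 : d ^ 2 * d' ^ 2 ≤ b ^ (m + 1) * b ^ (m + 1) := Nat.mul_le_mul hdM hdM'
      omega
    have h4 : ((b : ℝ) ^ (m + 1))⁻¹ ≤ 1 / (d * d') := by
      rw [inv_eq_one_div]
      apply one_div_le_one_div_of_le (by positivity)
      exact_mod_cast h3
    exact h4.trans (div_le_div_of_nonneg_right h2 (by positivity))
  have hmain := (Pool.Agent.Q263.MD.main hb (frs b) (frs_ne hb) (1 / (4 * (b : ℝ) ^ 2))
    (sig b ^ B) (1 + η) (by positivity) (by
      apply one_div_le_one_div_of_le (by positivity)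
      have : (2 : ℝ) ≤ b := by exact_mod_cast hb
      nlinarith) frs_closed (frs_gap hb) (fun y => maj b y ^ B)
    (fun y => pow_nonneg (maj_pos hb y).le B) (fun y => pow_le_one₀ (maj_pos hb y).le
      (maj_le_one hb y)) (pow_nonneg (sig_pos hb).le B) (fun y hy => by rw [maj_small y hy])
    (hBs.le.trans (min_le_left _ _)) (by
      have h1 := hBs.le.trans (min_le_right _ _)
      rw [le_div_iff₀ (by positivity)] at h1
      linarith) (m + 1)).2 X hsep
  refine le_trans (le_of_eq ?_) hmain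
  unfold Sm
  rw [hX, Finset.sum_image, Finset.sum_sigma]
  · refine Finset.sum_congr rfl fun d _ => Finset.sum_congr rfl fun a _ => ?_
    unfold Ph
    rw [Finset.prod_pow]
  · rintro ⟨d, a⟩ hda ⟨d', a'⟩ hda' h
    rw [Finset.mem_coe, Finset.mem_sigma] at hda hda'
    simp only at h
    obtain ⟨hd1, -, -⟩ := hΔ d hda.1
    obtain ⟨hd1', -, -⟩ := hΔ d' hda'.1
    have hd0 : (0 : ℝ) < d := by exact_mod_cast (by omega : 0 < d)
    have hd0' : (0 : ℝ) < d' := by exact_mod_cast (by omega : 0 < d')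
    rw [div_eq_div_iff hd0.ne' hd0'.ne'] at h
    have h2 : (a : ℤ) * d' = a' * d := by exact_mod_cast h
    obtain ⟨h3, h4⟩ := hfrac d hda.1 a hda.2 d' hda'.1 a' hda'.2 0 (by linarith)
    subst h3
    subst h4
    rfl

end Pool.Agent.Q263.SV
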