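import Mathlib
import Pool.Agent.Q263.SV.Fin

/-!
Values of `n ^ 2 + a` at integers with restricted digits.
-/

set_option autoImplicit false

open Finset

namespace Pool.Agent.Q263.SV

open Pool.Agent.Q263.MD (Dig card_Dig Dig_ge)

/-- change the low digits -/
lemma digit_mix {b i h l j : ℕ} (hb : 2 ≤ b) (hl : l < b ^ i) :
    (b ^ i * h + l) / b ^ j % b = if j < i then l / b ^ j % b else h / b ^ (j - i) % b := by
  have hb0 : 0 < b := by omega
  split_ifs with hj
  · obtain ⟨t, rfl⟩ : ∃ t, i = j + (t + 1) := ⟨i - j - 1, by omega⟩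
    have e : b ^ (j + (t + 1)) * h + l = l + b ^ j * (b * (b ^ t * h)) := by ring
    rw [e, Nat.add_mul_div_left _ _ (by positivity), Nat.add_mul_mod_self_left]
  · obtain ⟨t, rfl⟩ : ∃ t, j = i + t := ⟨j - i, by omega⟩
    rw [pow_add, ← Nat.div_div_eq_div_mul, Nat.mul_add_div (by positivity),
      Nat.div_eq_of_lt hl, add_zero]
    congr 3
    omega

/-- the share of a residue class -/
lemma class_share {b : ℕ} (hb : 2 ≤ b) {k : ℕ} (D : Fin k → Finset ℕ)
    (hD : ∀ i, ∀ d ∈ D i, d < b) (hD2 : ∀ i, 2 ≤ (D i).card) (i Q : ℕ) (hi : i ≤ k)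
    (hQ : b ^ i ≤ Q) (P : ℕ → Prop) [DecidablePred P]
    (hP : ∀ x ∈ Dig b k D, ∀ y ∈ Dig b k D, P x → P y → x ≡ y [MOD Q]) :
    ((Dig b k D).filter P).card * 2 ^ i ≤ (Dig b k D).card := by
  classical
  set D' : Fin i → Finset ℕ := fun j => D (Fin.castLE hi j) with hD'
  have h1 : 2 ^ i ≤ (Dig b i D').card := Dig_ge D' (fun j => hD _) (fun j => hD2 _)
  refine (Nat.mul_le_mul_left _ h1).trans ?_
  rw [← Finset.card_product]
  apply Finset.card_le_card_of_injOn (fun x => b ^ i * (x.1 / b ^ i) + x.2)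
  · rintro ⟨n, l⟩ h
    rw [Finset.mem_coe, Finset.mem_product, Finset.mem_filter] at h
    obtain ⟨⟨hn, hPn⟩, hl⟩ := h
    simp only at hn hl
    unfold Dig at hn hl
    rw [Finset.mem_filter, Finset.mem_range] at hn hl
    rw [Finset.mem_coe]
    unfold Dig
    rw [Finset.mem_filter, Finset.mem_range]
    have hb0 : 0 < b ^ i := by positivity
    constructor
    · obtain ⟨t, rfl⟩ : ∃ t, k = i + t := ⟨k - i, by omega⟩
      have h2 : n / b ^ i < b ^ t := by
        rw [Nat.div_lt_iff_lt_mul hb0, ← pow_add, Nat.add_comm]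
        exact hn.1
      calc b ^ i * (n / b ^ i) + l < b ^ i * (n / b ^ i) + b ^ i := by omega
        _ = b ^ i * (n / b ^ i + 1) := by ring
        _ ≤ b ^ i * b ^ t := Nat.mul_le_mul_left _ h2
        _ = b ^ (i + t) := by rw [pow_add]
    · intro j
      rw [digit_mix hb hl.1]
      split_ifs with hj
      · have := hl.2 ⟨j, hj⟩
        exact this
      · have e : n / b ^ i / b ^ ((j : ℕ) - i) = n / b ^ (j : ℕ) := by
          rw [Nat.div_div_eq_div_mul, ← pow_add]
          congr 2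
          omega
        rw [e]
        exact hn.2 j
  · rintro ⟨n, l⟩ h ⟨n', l'⟩ h' heq
    rw [Finset.mem_coe, Finset.mem_product, Finset.mem_filter] at h h'
    obtain ⟨⟨hn, hPn⟩, hl⟩ := h
    obtain ⟨⟨hn', hPn'⟩, hl'⟩ := h'
    simp only at hn hl hn' hl' hPn hPn' heq
    have hl2 : l < b ^ i := by
      unfold Dig at hl
      rw [Finset.mem_filter, Finset.mem_range] at hl
      exact hl.1
    have hl2' : l' < b ^ i := by
      unfold Dig at hl'
      rw [Finset.mem_filter, Finset.mem_range] at hl'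
      exact hl'.1
    have hb0 : 0 < b ^ i := by positivity
    have e1 : n / b ^ i = n' / b ^ i := by
      have := congrArg (· / b ^ i) heq
      rw [Nat.mul_add_div hb0, Nat.mul_add_div hb0, Nat.div_eq_of_lt hl2, Nat.div_eq_of_lt hl2'] at this
      simpa using this
    have e2 : l = l' := by
      rw [e1] at heq
      omega
    have e3 : n = n' := by
      have hmod := hP n hn n' hn' hPn hPn'
      have h3 := Nat.div_add_mod n (b ^ i)
      have h4 := Nat.div_add_mod n' (b ^ i)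
      have h5 := Nat.mod_lt n hb0
      have h6 := Nat.mod_lt n' hb0
      rw [e1] at h3
      obtain ⟨w, hw⟩ : ∃ w, b ^ i * (n' / b ^ i) = w := ⟨_, rfl⟩
      obtain ⟨r, hr⟩ : ∃ r, n % b ^ i = r := ⟨_, rfl⟩
      obtain ⟨r', hr'⟩ : ∃ r', n' % b ^ i = r' := ⟨_, rfl⟩
      rw [hw, hr] at h3
      rw [hw, hr'] at h4
      rw [hr] at h5
      rw [hr'] at h6
      clear hw hr hr'
      rcases Nat.le_total n n' with h | h
      · have h7 := (Nat.modEq_iff_dvd' h).1 hmod
        by_contra hne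
        have h8 := Nat.le_of_dvd (by omega) h7
        omega
      · have h7 := (Nat.modEq_iff_dvd' h).1 hmod.symm
        by_contra hne
        have h8 := Nat.le_of_dvd (by omega) h7
        omega
    rw [e2, e3]

lemma pow_split {q : ℤ} (hq : Prime q) (i j : ℕ) (x y : ℤ) (h : q ^ (i + j + 1) ∣ x * y) :
    q ^ (i + 1) ∣ x ∨ q ^ (j + 1) ∣ y := by
  induction i generalizing x with
  | zero =>
    by_cases hx : q ∣ x
    · left
      simpa using hx
    · right
      have := hq.pow_dvd_of_dvd_mul_left _ hx h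
      simpa using this
  | succ i ih =>
    by_cases hx : q ∣ x
    · obtain ⟨x', rfl⟩ := hx
      have e : q ^ (i + 1 + j + 1) = q * q ^ (i + j + 1) := by ring
      rw [e, mul_assoc] at h
      rcases ih x' ((mul_dvd_mul_iff_left hq.ne_zero).1 h) with h1 | h1
      · left
        rw [pow_succ' q (i + 1)]
        exact mul_dvd_mul_left q h1
      · right
        exact h1
    · right
      have h1 := hq.pow_dvd_of_dvd_mul_left _ hx h
      exact (pow_dvd_pow q (by omega)).trans h1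

/-- the share of the integers with `n ^ 2 + a` divisible by a high power of a prime -/
lemma pow_share {b : ℕ} (hb : 2 ≤ b) {k : ℕ} (D : Fin k → Finset ℕ)
    (hD : ∀ i, ∀ d ∈ D i, d < b) (hD2 : ∀ i, 2 ≤ (D i).card) (i q t : ℕ) (hi : i ≤ k)
    (hq : q.Prime) (hQ : b ^ i ≤ q ^ t) (ht : 1 ≤ t) (a : ℤ) :
    ((Dig b k D).filter (fun n : ℕ => ((q : ℤ) ^ (2 * t - 1)) ∣ (n : ℤ) ^ 2 + a)).card * 2 ^ i ≤
      2 * (Dig b k D).card := by
  classical
  rcases ((Dig b k D).filter (fun n : ℕ => ((q : ℤ) ^ (2 * t - 1)) ∣ (n : ℤ) ^ 2 + a)).eq_empty_or_nonempty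
    with h0 | ⟨n0, hn0⟩
  · rw [h0]
    simp
  rw [Finset.mem_filter] at hn0
  have hqp : Prime (q : ℤ) := Nat.prime_iff_prime_int.1 hq
  have hsub : (Dig b k D).filter (fun n : ℕ => ((q : ℤ) ^ (2 * t - 1)) ∣ (n : ℤ) ^ 2 + a) ⊆
      (Dig b k D).filter (fun n : ℕ => ((q : ℤ) ^ t) ∣ (n : ℤ) - n0) ∪
      (Dig b k D).filter (fun n : ℕ => ((q : ℤ) ^ t) ∣ (n : ℤ) + n0) := by
    intro n hn
    rw [Finset.mem_filter] at hn
    rw [Finset.mem_union, Finset.mem_filter, Finset.mem_filter]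
    have h1 : ((q : ℤ) ^ (2 * t - 1)) ∣ ((n : ℤ) - n0) * ((n : ℤ) + n0) := by
      have h2 := dvd_sub hn.2 hn0.2
      have e : (n : ℤ) ^ 2 + a - ((n0 : ℤ) ^ 2 + a) = ((n : ℤ) - n0) * ((n : ℤ) + n0) := by ring
      rwa [e] at h2
    have e2 : 2 * t - 1 = (t - 1) + (t - 1) + 1 := by omega
    rw [e2] at h1
    have e3 : t - 1 + 1 = t := by omega
    rcases pow_split hqp (t - 1) (t - 1) _ _ h1 with h | h
    · left
      rw [e3] at h
      exact ⟨hn.1, h⟩
    · right
      rw [e3] at h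
      exact ⟨hn.1, h⟩
  have hmod : ∀ x y : ℕ, ((q : ℤ) ^ t) ∣ (x : ℤ) - y → x ≡ y [MOD q ^ t] := by
    intro x y h
    apply Nat.ModEq.symm
    rw [Nat.modEq_iff_dvd]
    exact_mod_cast h
  have h1 := class_share hb D hD hD2 i (q ^ t) hi hQ
    (fun n : ℕ => ((q : ℤ) ^ t) ∣ (n : ℤ) - n0) (by
      intro x _ y _ hx hy
      apply hmod
      have := dvd_sub hx hy
      have e : (x : ℤ) - n0 - ((y : ℤ) - n0) = x - y := by ring
      rwa [e] at this)
  have h2 := class_share hb D hD hD2 i (q ^ t) hi hQ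
    (fun n : ℕ => ((q : ℤ) ^ t) ∣ (n : ℤ) + n0) (by
      intro x _ y _ hx hy
      apply hmod
      have := dvd_sub hx hy
      have e : (x : ℤ) + n0 - ((y : ℤ) + n0) = x - y := by ring
      rwa [e] at this)
  have h3 := (Finset.card_le_card hsub).trans (Finset.card_union_le _ _)
  calc _ ≤ (((Dig b k D).filter (fun n : ℕ => ((q : ℤ) ^ t) ∣ (n : ℤ) - n0)).card +
        ((Dig b k D).filter (fun n : ℕ => ((q : ℤ) ^ t) ∣ (n : ℤ) + n0)).card) * 2 ^ i :=
        Nat.mul_le_mul_right _ h3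
    _ ≤ _ := by
        rw [add_mul]
        omega

/-- at most two roots -/
lemma roots_le (p : ℕ) (hp : p.Prime) (a : ℤ) :
    ((range p).filter (fun r : ℕ => (p : ℤ) ∣ (r : ℤ) ^ 2 + a)).card ≤ 2 := by
  classical
  rcases ((range p).filter (fun r : ℕ => (p : ℤ) ∣ (r : ℤ) ^ 2 + a)).eq_empty_or_nonempty with
    h0 | ⟨r0, hr0⟩
  · rw [h0]
    simp
  rw [Finset.mem_filter, Finset.mem_range] at hr0
  have hqp : Prime (p : ℤ) := Nat.prime_iff_prime_int.1 hp
  have hsub : (range p).filter (fun r : ℕ => (p : ℤ) ∣ (r : ℤ) ^ 2 + a) ⊆ {r0, (p - r0) % p} := by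
    intro n hn
    rw [Finset.mem_filter, Finset.mem_range] at hn
    have h1 : (p : ℤ) ∣ ((n : ℤ) - r0) * ((n : ℤ) + r0) := by
      have h2 := dvd_sub hn.2 hr0.2
      have e : (n : ℤ) ^ 2 + a - ((r0 : ℤ) ^ 2 + a) = ((n : ℤ) - r0) * ((n : ℤ) + r0) := by ring
      rwa [e] at h2
    rw [Finset.mem_insert, Finset.mem_singleton]
    rcases hqp.dvd_or_dvd h1 with h | h
    · left
      have h3 : (r0 : ℤ) ≡ n [ZMOD p] := Int.modEq_iff_dvd.2 h
      have h4 := Int.natCast_modEq_iff.1 h3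
      have h5 : r0 % p = n % p := h4
      rw [Nat.mod_eq_of_lt hr0.1, Nat.mod_eq_of_lt hn.1] at h5
      exact h5.symm
    · right
      have h3 : p ∣ n + r0 := by exact_mod_cast h
      obtain ⟨w, hw⟩ := h3
      have hw2 : w < 2 := by
        by_contra hw2
        have : p * 2 ≤ p * w := Nat.mul_le_mul_left p (by omega)
        omega
      rcases Nat.eq_zero_or_pos w with hw0 | hw0
      · subst hw0
        have : n = 0 ∧ r0 = 0 := by omega
        rw [this.1, this.2]
        simp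
      · have hw1 : w = 1 := by omega
        subst hw1
        rw [Nat.mod_eq_of_lt (by omega)]
        omega
  refine (Finset.card_le_card hsub).trans ?_
  exact (Finset.card_insert_le _ _).trans (by simp)

end Pool.Agent.Q263.SV
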