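import Mathlib
import Pool.Agent.Q263.SV.Pol

/-!
Almost primes `n ^ 2 + a` at integers `n` with restricted digits.
-/

set_option autoImplicit false

open Finset

namespace Pool.Agent.Q263.SV

open Pool.Agent.Q263.MD (Dig card_Dig Dig_ge)

lemma exp_quad (x : ℝ) (h0 : 0 ≤ x) (h1 : x ≤ 1 / 2) : 1 ≤ (1 - x) * Real.exp (x + 2 * x ^ 2) := by
  have h2 := Real.add_one_le_exp (x + 2 * x ^ 2)
  have h3 : (1 : ℝ) ≤ (1 - x) * (x + 2 * x ^ 2 + 1) := by nlinarith [mul_nonneg h0 h0]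
  exact h3.trans (mul_le_mul_of_nonneg_left h2 (by linarith))

lemma prod_lower : ∃ c : ℝ, 0 < c ∧ ∀ (K z J : ℕ) (R : ℕ → Finset ℕ), 4 ≤ K →
    (∀ p ∈ Pr K z, (R p).card ≤ 2) → z ≤ 2 ^ 2 ^ J →
    c / ((2 : ℝ) ^ J) ^ 2 ≤ ∏ p ∈ Pr K z, (1 - ((R p).card : ℝ) / p) := by
  obtain ⟨M, hM, hmert⟩ := mert
  have hsum : Summable (fun n : ℕ => 1 / (n : ℝ) ^ 2) := Real.summable_one_div_nat_pow.2 (by norm_num)
  set Z := ∑' n : ℕ, 1 / (n : ℝ) ^ 2 with hZ
  refine ⟨Real.exp (-(2 * M + 8 * Z)), Real.exp_pos _, fun K z J R hK hR hz => ?_⟩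
  have h1 := hmert K z J hz
  have h2 : ∑ p ∈ Pr K z, 1 / (p : ℝ) ^ 2 ≤ Z := hsum.sum_le_tsum _ fun i _ => by positivity
  set W := ∏ p ∈ Pr K z, (1 - ((R p).card : ℝ) / p) with hW
  have hp : ∀ p ∈ Pr K z, (0 : ℝ) < p ∧ ((R p).card : ℝ) / p ≤ 2 / p ∧ (2 : ℝ) / p ≤ 1 / 2 := by
    intro p hp
    have h3 := mem_Pr.1 hp
    have h4 : (4 : ℝ) ≤ p := by exact_mod_cast (by omega : 4 ≤ p)
    have h5 : ((R p).card : ℝ) ≤ 2 := by exact_mod_cast hR p hp
    refine ⟨by linarith, div_le_div_of_nonneg_right h5 (by linarith), ?_⟩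
    rw [div_le_iff₀ (by linarith)]
    linarith
  have h3 : 1 ≤ W * Real.exp (∑ p ∈ Pr K z, (2 / (p : ℝ) + 2 * (2 / (p : ℝ)) ^ 2)) := by
    rw [Real.exp_sum, hW, ← Finset.prod_mul_distrib]
    calc (1 : ℝ) = ∏ _p ∈ Pr K z, (1 : ℝ) := by rw [Finset.prod_const_one]
      _ ≤ _ := by
        apply Finset.prod_le_prod (fun _ _ => zero_le_one)
        intro p hp'
        obtain ⟨h4, h5, h6⟩ := hp p hp'
        have h7 := exp_quad (2 / p) (by positivity) h6
        exact h7.trans (mul_le_mul_of_nonneg_right (by linarith) (Real.exp_nonneg _))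
  have h4 : ∑ p ∈ Pr K z, (2 / (p : ℝ) + 2 * (2 / (p : ℝ)) ^ 2) =
      2 * ∑ p ∈ Pr K z, 1 / (p : ℝ) + 8 * ∑ p ∈ Pr K z, 1 / (p : ℝ) ^ 2 := by
    rw [Finset.mul_sum, Finset.mul_sum, ← Finset.sum_add_distrib]
    refine Finset.sum_congr rfl fun p hp' => ?_
    have := (hp p hp').1
    field_simp
    ring
  have h5 : Real.exp (∑ p ∈ Pr K z, (2 / (p : ℝ) + 2 * (2 / (p : ℝ)) ^ 2)) ≤
      ((2 : ℝ) ^ J) ^ 2 * Real.exp (2 * M + 8 * Z) := by
    rw [h4]
    calc Real.exp (2 * ∑ p ∈ Pr K z, 1 / (p : ℝ) + 8 * ∑ p ∈ Pr K z, 1 / (p : ℝ) ^ 2) ≤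
          Real.exp (Real.log (2 ^ J) + Real.log (2 ^ J) + (2 * M + 8 * Z)) := by
          apply Real.exp_le_exp.2
          linarith
      _ = _ := by
          rw [Real.exp_add, Real.exp_add, Real.exp_log (by positivity)]
          ring
  have hW0 : 0 ≤ W := Finset.prod_nonneg fun p hp' => by
    obtain ⟨h4, h5, h6⟩ := hp p hp'
    linarith
  have h6 : 1 ≤ W * (((2 : ℝ) ^ J) ^ 2 * Real.exp (2 * M + 8 * Z)) :=
    h3.trans (mul_le_mul_of_nonneg_left h5 hW0)
  rw [div_le_iff₀ (by positivity), Real.exp_neg, ← one_div, div_le_iff₀ (Real.exp_pos _)]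
  linarith

lemma pow_len (z : ℕ) (l : List ℕ) (h : ∀ x ∈ l, z ≤ x) : z ^ l.length ≤ l.prod := by
  induction l with
  | nil => simp
  | cons x l ih =>
    rw [List.length_cons, List.prod_cons, pow_succ, mul_comm]
    exact Nat.mul_le_mul (h x (List.mem_cons_self)) (ih fun y hy => h y (List.mem_cons_of_mem x hy))

/-- factorisation into a smooth and a rough part -/
lemma factor (N K z T R : ℕ) (hN : N ≠ 0) (hT : 1 ≤ T) (h1 : ∀ p ∈ Pr K z, ¬ p ∣ N)
    (h2 : ∀ q v : ℕ, q.Prime → q ≤ K → q ^ v ∣ N → q ^ v ≤ T) (hz : ∀ j, z ^ j ≤ N → j ≤ R) :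
    ∃ s m : ℕ, N = s * m ∧ s ≤ T ^ K ∧ m.primeFactorsList.length ≤ R ∧
      ∀ p, p.Prime → p ∣ m → z < p := by
  classical
  have hfac := Nat.prod_factorization_pow_eq_self hN
  unfold Finsupp.prod at hfac
  rw [Nat.support_factorization, ← Finset.prod_filter_mul_prod_filter_not N.primeFactors
    (fun p => p ≤ K)] at hfac
  set s := ∏ p ∈ N.primeFactors.filter (fun p => p ≤ K), p ^ N.factorization p with hs
  set m := ∏ p ∈ N.primeFactors.filter (fun p => ¬ p ≤ K), p ^ N.factorization p with hm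
  have hm0 : m ≠ 0 := by
    intro h
    rw [h, mul_zero] at hfac
    exact hN hfac.symm
  have hpm : ∀ p, p.Prime → p ∣ m → z < p := by
    intro p hp hpm
    rw [hm] at hpm
    obtain ⟨q, hq, hpq⟩ := (Prime.dvd_finsetProd_iff hp.prime _).1 hpm
    rw [Finset.mem_filter, Nat.mem_primeFactors] at hq
    have h3 := hp.dvd_of_dvd_pow hpq
    have h4 := (Nat.prime_dvd_prime_iff_eq hp hq.1.1).1 h3
    subst h4
    by_contra h5
    exact h1 p (mem_Pr.2 ⟨hp, by omega, by omega⟩) hq.1.2.1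
  refine ⟨s, m, hfac.symm, ?_, ?_, hpm⟩
  · calc s ≤ ∏ p ∈ N.primeFactors.filter (fun p => p ≤ K), T := by
          apply Finset.prod_le_prod' fun p hp => ?_
          rw [Finset.mem_filter, Nat.mem_primeFactors] at hp
          exact h2 p _ hp.1.1 hp.2 (Nat.ordProj_dvd N p)
      _ = T ^ (N.primeFactors.filter (fun p => p ≤ K)).card := by rw [Finset.prod_const]
      _ ≤ T ^ K := by
          apply Nat.pow_le_pow_right hT
          calc (N.primeFactors.filter (fun p => p ≤ K)).card ≤ (Finset.Icc 1 K).card := by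
                apply Finset.card_le_card
                intro p hp
                rw [Finset.mem_filter, Nat.mem_primeFactors] at hp
                rw [Finset.mem_Icc]
                exact ⟨hp.1.1.one_lt.le, hp.2⟩
            _ = K := by simp
  · apply hz
    calc z ^ m.primeFactorsList.length ≤ m.primeFactorsList.prod := by
          apply pow_len
          intro x hx
          exact (hpm x (Nat.prime_of_mem_primeFactorsList hx) (Nat.dvd_of_mem_primeFactorsList hx)).le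
      _ = m := Nat.prod_primeFactorsList hm0
      _ ≤ N := Nat.le_of_dvd (Nat.pos_of_ne_zero hN) ⟨s, by rw [mul_comm]; exact hfac.symm⟩

/-- growth -/
lemma growth (b : ℕ) (hb : 2 ≤ b) (e : ℕ) (C : ℝ) :
    ∃ k1 : ℕ, ∀ k : ℕ, k1 ≤ k → C * (k : ℝ) ^ e ≤ (b : ℝ) ^ k := by
  have h1 : (fun n : ℕ => ((n : ℝ) ^ e : ℝ)) =o[Filter.atTop] fun n : ℕ => ((b : ℝ) ^ n) :=
    isLittleO_pow_const_const_pow_of_one_lt (R := ℝ) e (by exact_mod_cast (by omega : 1 < b))
  have h2 := h1.def (show 0 < 1 / (|C| + 1) by positivity)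
  obtain ⟨k1, hk1⟩ := Filter.eventually_atTop.1 h2
  refine ⟨k1, fun k hk => ?_⟩
  have h3 := hk1 k hk
  rw [Real.norm_of_nonneg (by positivity), Real.norm_of_nonneg (by positivity)] at h3
  have h4 : 0 < |C| + 1 := by positivity
  have h5 : (|C| + 1) * (k : ℝ) ^ e ≤ (b : ℝ) ^ k := by
    calc (|C| + 1) * (k : ℝ) ^ e ≤ (|C| + 1) * (1 / (|C| + 1) * (b : ℝ) ^ k) :=
          mul_le_mul_of_nonneg_left h3 h4.le
      _ = (b : ℝ) ^ k := by field_simp
  have h6 : C * (k : ℝ) ^ e ≤ (|C| + 1) * (k : ℝ) ^ e := by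
    apply mul_le_mul_of_nonneg_right _ (by positivity)
    have := le_abs_self C
    linarith
  linarith

open Classical in
theorem almost {b : ℕ} (hb : 2 ≤ b) (A : ℕ) :
    ∃ (M R L k₀ : ℕ) (c : ℝ), 1 ≤ L ∧ 0 < c ∧ ∀ k : ℕ, k₀ ≤ k → ∀ D : Fin k → Finset ℕ,
      (∀ i, ∀ d ∈ D i, d < b) → (∀ i, 2 ≤ (D i).card) → ∀ a : ℤ, a.natAbs ≤ b ^ (A * k) →
      c * (Dig b k D).card / (k : ℝ) ^ 2 ≤ (((Dig b k D).filter (fun n : ℕ =>
        ∃ s m : ℕ, 1 ≤ s ∧ 1 ≤ m ∧ ((n : ℤ) ^ 2 + a).natAbs = s * m ∧ s ≤ k ^ M ∧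
          m.primeFactorsList.length ≤ R ∧ ∀ p, p.Prime → p ∣ m → b ^ (k / L) < p)).card : ℝ) := by
  obtain ⟨K₀, L, hL, hsieve⟩ := sieve hb 2 (1 / 2) (by norm_num)
  obtain ⟨c1, hc1, hlow⟩ := prod_lower
  obtain ⟨K, hK⟩ : ∃ K, K = K₀ + 4 := ⟨_, rfl⟩
  have hb0 : (0 : ℝ) < b := by exact_mod_cast (by omega : 0 < b)
  obtain ⟨c2, hc2⟩ : ∃ c2 : ℝ, c2 = c1 / (32 * b ^ 2) := ⟨_, rfl⟩
  have hc20 : 0 < c2 := by rw [hc2]; positivity
  obtain ⟨k1, hk1⟩ := growth b hb (3 * b) 1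
  obtain ⟨k2, hk2⟩ := growth 2 le_rfl 2 (4 / c2)
  obtain ⟨k3, hk3⟩ := exists_nat_ge (16 * K / c2)
  refine ⟨6 * b * K, 2 * L * (A + 3), L, L + k1 + k2 + k3 + 1, c2 / 2, hL, by positivity, ?_⟩
  intro k hk D hD hD2 a ha
  set S := Dig b k D with hS
  have hkp : (0 : ℝ) < k := by exact_mod_cast (by omega : 0 < k)
  have hk0 : 1 ≤ k := by omega
  set z := b ^ (k / L) with hz
  have hkL : 1 ≤ k / L := (Nat.one_le_div_iff (by omega)).2 (by omega)
  have hzL : z ^ L ≤ b ^ k := by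
    rw [hz, ← pow_mul]
    exact Nat.pow_le_pow_right (by omega) (Nat.div_mul_le_self k L)
  have hz2 : 2 ≤ z := by
    calc 2 ≤ b := hb
      _ = b ^ 1 := (pow_one b).symm
      _ ≤ z := Nat.pow_le_pow_right (by omega) hkL
  set R : ℕ → Finset ℕ := fun p => (range p).filter (fun r : ℕ => (p : ℤ) ∣ (r : ℤ) ^ 2 + a) with hR
  have hcount := hsieve K (by omega) k D hD hD2 z hzL R (by
    intro p hp _ _
    refine ⟨fun r hr => ?_, roots_le p hp a⟩
    rw [hR, Finset.mem_filter, Finset.mem_range] at hr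
    exact hr.1)
  set C1 := S.filter (fun m => ∀ p ∈ Pr K z, m % p ∉ R p) with hC1
  set W := ∏ p ∈ Pr K z, (1 - ((R p).card : ℝ) / p) with hW
  obtain ⟨J, hJ1, hJ2⟩ := choose_J z hz2
  have hzk : z ≤ b ^ k := Nat.pow_le_pow_right (by omega) (Nat.div_le_self k L)
  have hJk : 2 ^ J ≤ 4 * k * b := by
    rw [← Nat.pow_le_pow_iff_right (show 1 < 2 by norm_num)]
    calc 2 ^ 2 ^ J ≤ z ^ 4 := hJ2
      _ ≤ (b ^ k) ^ 4 := Nat.pow_le_pow_left hzk 4
      _ ≤ ((2 ^ b) ^ k) ^ 4 := Nat.pow_le_pow_left (Nat.pow_le_pow_left Nat.lt_two_pow_self.le k) 4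
      _ = 2 ^ (4 * k * b) := by
          rw [← pow_mul, ← pow_mul]
          congr 1
          ring
  have hWlow : c1 / (4 * k * b) ^ 2 ≤ W := by
    refine le_trans ?_ (hlow K z J R (by omega) (fun p hp => roots_le p (mem_Pr.1 hp).1 a) hJ1)
    apply div_le_div_of_nonneg_left hc1.le (by positivity)
    apply pow_le_pow_left₀ (by positivity)
    exact_mod_cast hJk
  have hSc : (0 : ℝ) ≤ S.card := Nat.cast_nonneg _
  have hC1low : c2 * S.card / (k : ℝ) ^ 2 ≤ C1.card := by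
    have h1 := (abs_le.1 hcount).1
    have h2 : (S.card : ℝ) * W / 2 ≤ C1.card := by linarith
    refine le_trans ?_ h2
    have h3 := mul_le_mul_of_nonneg_left hWlow hSc
    have h4 : c2 * S.card / (k : ℝ) ^ 2 = S.card * (c1 / (4 * k * b) ^ 2) / 2 := by
      rw [hc2]
      field_simp
      ring
    rw [h4]
    linarith
  -- the exceptional sets
  set X := k ^ (3 * b) with hX
  have hX1 : 1 ≤ X := Nat.one_le_pow _ _ hk0
  set t : ℕ → ℕ := fun q => Nat.log q X + 1 with ht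
  set i := Nat.log b X with hi
  have hik : i ≤ k := by
    have h1 := hk1 k (by omega)
    rw [one_mul] at h1
    have h2 : X ≤ b ^ k := by exact_mod_cast h1
    calc i ≤ Nat.log b (b ^ k) := Nat.log_mono_right h2
      _ = k := Nat.log_pow (by omega) k
  have hi2 : k ^ 3 < 2 * 2 ^ i := by
    have h1 : X < b ^ (i + 1) := Nat.lt_pow_succ_log_self (by omega) X
    have h2 : b ^ (i + 1) ≤ (2 ^ b) ^ (i + 1) := Nat.pow_le_pow_left Nat.lt_two_pow_self.le _
    have h3 : (k ^ 3) ^ b < (2 ^ (i + 1)) ^ b := by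
      calc (k ^ 3) ^ b = X := by rw [hX, ← pow_mul]
        _ < (2 ^ b) ^ (i + 1) := lt_of_lt_of_le h1 h2
        _ = (2 ^ (i + 1)) ^ b := by rw [← pow_mul, ← pow_mul]; ring
    have h4 := lt_of_pow_lt_pow_left₀ b (by positivity) h3
    rw [pow_succ 2 i] at h4
    omega
  set Bq : ℕ → Finset ℕ := fun q => S.filter (fun n : ℕ => ((q : ℤ) ^ (2 * t q - 1)) ∣ (n : ℤ) ^ 2 + a)
    with hBq
  have hBqc : ∀ q, q.Prime → ((Bq q).card : ℝ) * (k : ℝ) ^ 3 ≤ 4 * S.card := by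
    intro q hq
    have h1 := pow_share hb D hD hD2 i q (t q) hik hq (by
      calc b ^ i ≤ X := Nat.pow_log_le_self b (by omega)
        _ ≤ q ^ t q := (Nat.lt_pow_succ_log_self hq.one_lt X).le) (Nat.succ_pos _) a
    have h2 : (Bq q).card * k ^ 3 ≤ 4 * S.card := by
      calc (Bq q).card * k ^ 3 ≤ (Bq q).card * (2 * 2 ^ i) := Nat.mul_le_mul_left _ hi2.le
        _ = 2 * ((Bq q).card * 2 ^ i) := by ring
        _ ≤ 2 * (2 * S.card) := Nat.mul_le_mul_left 2 h1
        _ = _ := by ring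
    exact_mod_cast h2
  set B0 := S.filter (fun n : ℕ => (n : ℤ) ^ 2 + a = 0) with hB0
  have hB0c : B0.card ≤ 1 := by
    rw [Finset.card_le_one]
    intro x hx y hy
    rw [hB0, Finset.mem_filter] at hx hy
    have h1 : (x : ℤ) ^ 2 = (y : ℤ) ^ 2 := by linarith [hx.2, hy.2]
    have h2 : x ^ 2 = y ^ 2 := by exact_mod_cast h1
    exact Nat.pow_left_injective (n := 2) (by norm_num) h2
  set Ps := (Finset.Icc 1 K).filter Nat.Prime with hPs
  set BB := B0 ∪ Ps.biUnion Bq with hBB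
  have hBBc : (BB.card : ℝ) ≤ 1 + 4 * K * S.card / (k : ℝ) ^ 3 := by
    have h1 : BB.card ≤ B0.card + ∑ q ∈ Ps, (Bq q).card :=
      (Finset.card_union_le _ _).trans (Nat.add_le_add_left Finset.card_biUnion_le _)
    have h2 : (BB.card : ℝ) ≤ B0.card + ∑ q ∈ Ps, ((Bq q).card : ℝ) := by exact_mod_cast h1
    have h3 : ∑ q ∈ Ps, ((Bq q).card : ℝ) ≤ Ps.card * (4 * S.card / (k : ℝ) ^ 3) := by
      rw [← nsmul_eq_mul]
      apply Finset.sum_le_card_nsmul
      intro q hq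
      rw [hPs, Finset.mem_filter] at hq
      rw [le_div_iff₀ (by positivity)]
      exact hBqc q hq.2
    have h4 : (Ps.card : ℝ) ≤ K := by
      have : Ps.card ≤ (Finset.Icc 1 K).card := Finset.card_filter_le _ _
      rw [Nat.card_Icc] at this
      exact_mod_cast (by omega : Ps.card ≤ K)
    have h5 : (B0.card : ℝ) ≤ 1 := by exact_mod_cast hB0c
    have h6 : (Ps.card : ℝ) * (4 * S.card / (k : ℝ) ^ 3) ≤ K * (4 * S.card / (k : ℝ) ^ 3) :=
      mul_le_mul_of_nonneg_right h4 (by positivity)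
    have h7 : (K : ℝ) * (4 * S.card / (k : ℝ) ^ 3) = 4 * K * S.card / (k : ℝ) ^ 3 := by ring
    linarith
  -- the good ones
  have hgood : C1 \ BB ⊆ S.filter (fun n : ℕ =>
        ∃ s m : ℕ, 1 ≤ s ∧ 1 ≤ m ∧ ((n : ℤ) ^ 2 + a).natAbs = s * m ∧ s ≤ k ^ (6 * b * K) ∧
          m.primeFactorsList.length ≤ 2 * L * (A + 3) ∧ ∀ p, p.Prime → p ∣ m → b ^ (k / L) < p) := by
    intro n hn
    rw [Finset.mem_sdiff, hBB, Finset.mem_union, Finset.mem_biUnion] at hn
    obtain ⟨hn1, hn2⟩ := hn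
    rw [hC1, Finset.mem_filter] at hn1
    have hnS := hn1.1
    push Not at hn2
    obtain ⟨hn3, hn4⟩ := hn2
    rw [Finset.mem_filter]
    refine ⟨hnS, ?_⟩
    have hne : ((n : ℤ) ^ 2 + a).natAbs ≠ 0 := by
      rw [Int.natAbs_ne_zero]
      intro h
      exact hn3 (by rw [hB0, Finset.mem_filter]; exact ⟨hnS, h⟩)
    have hnb : n < b ^ k := by
      rw [hS] at hnS
      unfold Dig at hnS
      rw [Finset.mem_filter, Finset.mem_range] at hnS
      exact hnS.1
    have hsize : ((n : ℤ) ^ 2 + a).natAbs ≤ b ^ ((A + 3) * k) := by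
      have h1 : ((n : ℤ) ^ 2 + a).natAbs ≤ n ^ 2 + a.natAbs := by
        refine (Int.natAbs_add_le _ _).trans ?_
        rw [Int.natAbs_pow, Int.natAbs_natCast]
      have h2 : n ^ 2 ≤ b ^ (2 * k) := by
        calc n ^ 2 ≤ (b ^ k) ^ 2 := Nat.pow_le_pow_left hnb.le 2
          _ = b ^ (2 * k) := by rw [← pow_mul]; ring
      have h3 : b ^ (2 * k) ≤ b ^ ((A + 2) * k) := Nat.pow_le_pow_right (by omega)
        (Nat.mul_le_mul_right k (by omega))
      have h4 : b ^ (A * k) ≤ b ^ ((A + 2) * k) := Nat.pow_le_pow_right (by omega)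
        (Nat.mul_le_mul_right k (by omega))
      calc ((n : ℤ) ^ 2 + a).natAbs ≤ 2 * b ^ ((A + 2) * k) := by omega
        _ ≤ b * b ^ ((A + 2) * k) := Nat.mul_le_mul_right _ hb
        _ = b ^ ((A + 2) * k + 1) := by rw [pow_succ]; ring
        _ ≤ b ^ ((A + 3) * k) := Nat.pow_le_pow_right (by omega) (by
            have : (A + 3) * k = (A + 2) * k + k := by ring
            omega)
    obtain ⟨s, m, h1, h2, h3, h4⟩ := factor ((n : ℤ) ^ 2 + a).natAbs K z (X ^ 2) (2 * L * (A + 3)) hne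
      (Nat.one_le_pow _ _ hX1) (by
        intro p hp hdvd
        have h1 := hn1.2 p hp
        apply h1
        rw [hR, Finset.mem_filter, Finset.mem_range]
        have hpp := (mem_Pr.1 hp).1
        refine ⟨Nat.mod_lt _ hpp.pos, ?_⟩
        have h2 : (p : ℤ) ∣ (n : ℤ) ^ 2 + a := Int.natCast_dvd.2 hdvd
        have h3 : ((n % p : ℕ) : ℤ) ≡ (n : ℤ) [ZMOD p] := by
          rw [Int.natCast_mod]
          exact Int.mod_modEq _ _
        have h4 : ((n % p : ℕ) : ℤ) ^ 2 + a ≡ (n : ℤ) ^ 2 + a [ZMOD p] :=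
          (h3.pow 2).add_right a
        exact (Int.ModEq.dvd_iff h4).2 h2) (by
        intro q v hq hqK hdvd
        by_contra hlt
        rw [not_le] at hlt
        have hv : 2 * t q - 1 ≤ v := by
          have h1 : q ^ Nat.log q X ≤ X := Nat.pow_log_le_self q (by omega)
          have h2 : q ^ (2 * Nat.log q X) < q ^ v := by
            calc q ^ (2 * Nat.log q X) = (q ^ Nat.log q X) ^ 2 := by rw [← pow_mul]; ring
              _ ≤ X ^ 2 := Nat.pow_le_pow_left h1 2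
              _ < q ^ v := hlt
          have h3 := (Nat.pow_lt_pow_iff_right hq.one_lt).1 h2
          simp only [ht]
          omega
        apply hn4 q (by
          rw [hPs, Finset.mem_filter, Finset.mem_Icc]
          exact ⟨⟨hq.one_lt.le, hqK⟩, hq⟩)
        simp only [hBq]
        rw [Finset.mem_filter]
        refine ⟨hnS, ?_⟩
        have h5 : (q : ℤ) ^ v ∣ (n : ℤ) ^ 2 + a := by
          have := Int.natCast_dvd.2 hdvd
          exact_mod_cast this
        exact (pow_dvd_pow _ hv).trans h5) (by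
        intro j hj
        have h1 : b ^ (k / L * j) ≤ b ^ ((A + 3) * k) := by
          rw [pow_mul]
          exact hj.trans hsize
        have h2 : k / L * j ≤ (A + 3) * k := (Nat.pow_le_pow_iff_right (by omega)).1 h1
        have h3 : k < L * (k / L + 1) := Nat.lt_mul_div_succ k (by omega)
        have h4 : k ≤ 2 * L * (k / L) := by
          have : L * (k / L + 1) ≤ L * (2 * (k / L)) := Nat.mul_le_mul_left L (by omega)
          calc k ≤ L * (2 * (k / L)) := by omega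
            _ = _ := by ring
        have h5 : k / L * j ≤ k / L * (2 * L * (A + 3)) := by
          calc k / L * j ≤ (A + 3) * k := h2
            _ ≤ (A + 3) * (2 * L * (k / L)) := Nat.mul_le_mul_left _ h4
            _ = _ := by ring
        exact Nat.le_of_mul_le_mul_left h5 hkL)
    have hs0 : s ≠ 0 := by
      rintro rfl
      rw [zero_mul] at h1
      exact hne h1
    have hm0 : m ≠ 0 := by
      rintro rfl
      rw [mul_zero] at h1
      exact hne h1
    refine ⟨s, m, by omega, by omega, h1, ?_, h3, h4⟩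
    calc s ≤ (X ^ 2) ^ K := h2
      _ = k ^ (6 * b * K) := by
          rw [hX, ← pow_mul, ← pow_mul]
          congr 1
          ring
  have hcard := Finset.card_le_card hgood
  have h1 : C1.card ≤ (C1 \ BB).card + BB.card := by
    have := Finset.card_le_card_sdiff_add_card (s := C1) (t := BB)
    omega
  have h2 : (C1.card : ℝ) ≤ (C1 \ BB).card + BB.card := by exact_mod_cast h1
  have h3 : ((C1 \ BB).card : ℝ) ≤ _ := Nat.cast_le.2 hcard
  refine le_trans ?_ h3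
  -- numerics
  have hS2 : ((2 : ℕ) : ℝ) ^ k ≤ S.card := by
    have := Dig_ge (b := b) D hD hD2
    exact_mod_cast this
  have h4 : 1 ≤ c2 / 4 * S.card / (k : ℝ) ^ 2 := by
    have h5 := (hk2 k (by omega)).trans hS2
    rw [le_div_iff₀ (by positivity), one_mul]
    calc (k : ℝ) ^ 2 = c2 / 4 * (4 / c2 * (k : ℝ) ^ 2) := by field_simp
      _ ≤ c2 / 4 * S.card := mul_le_mul_of_nonneg_left h5 (by positivity)
  have h5 : 4 * K * S.card / (k : ℝ) ^ 3 ≤ c2 / 4 * S.card / (k : ℝ) ^ 2 := by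
    have h6 : 16 * (K : ℝ) / c2 ≤ k := hk3.trans (by exact_mod_cast (by omega : k3 ≤ k))
    rw [div_le_iff₀ hc20] at h6
    rw [div_le_div_iff₀ (by positivity) (by positivity)]
    have h7 : (0 : ℝ) ≤ S.card * (k : ℝ) ^ 2 := by positivity
    have h8 := mul_le_mul_of_nonneg_right h6 h7
    nlinarith
  have h6 : c2 / 2 * S.card / (k : ℝ) ^ 2 = c2 * S.card / (k : ℝ) ^ 2 - c2 / 4 * S.card / (k : ℝ) ^ 2 -
      c2 / 4 * S.card / (k : ℝ) ^ 2 := by ring
  rw [h6]
  linarith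

end Pool.Agent.Q263.SV
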